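import Mathlib
import Pool.Agent.Helper93.Hemi.Base

/-!
# Packets K0 and K1: point counts for `tr(γ U^3 - 3 β U) + t = 0`
-/

set_option autoImplicit false
set_option linter.unusedSectionVars false

open Classical

namespace Pool.Agent.Helper90.Hemi

open Pool.Agent.Helper93.Hemi

variable {k E : Type} [Field k] [Fintype k] [Field E] [Fintype E] [Algebra k E]

theorem exists_psi (k : Type) [Field k] [Fintype k] : ∃ ψ : AddChar k ℂ, ψ ≠ 1 := by
  refine ⟨AddChar.FiniteField.primitiveChar_to_Complex k, ?_⟩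
  have h := AddChar.FiniteField.primitiveChar_to_Complex_isPrimitive (F := k)
  intro h1
  apply h (one_ne_zero (α := k))
  rw [h1]
  ext x
  simp

theorem ind_true {p : Prop} (h : p) : ind p = 1 := by unfold ind; rw [if_pos h]

theorem ind_false {p : Prop} (h : ¬ p) : ind p = 0 := by unfold ind; rw [if_neg h]

/-- Counting zeros with an additive character. -/
theorem count_zeros {ψ : AddChar k ℂ} (hψ : ψ ≠ 1) (f : E → k) (t : k) :
    (Fintype.card k : ℂ) * ((Finset.univ.filter (fun U : E => f U + t = 0)).card : ℂ) =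
      Fintype.card E + ∑ m : kˣ, ψ ((m : k) * t) * ∑ U : E, ψ ((m : k) * f U) := by
  have h1 : (Fintype.card k : ℂ) * ((Finset.univ.filter (fun U : E => f U + t = 0)).card : ℂ) =
      ∑ U : E, ∑ x : k, ψ (x * (f U + t)) := by
    simp_rw [sum_psi hψ]
    rw [Finset.sum_ite, Finset.sum_const_zero, add_zero, Finset.sum_const, nsmul_eq_mul, mul_comm]
  rw [h1, Finset.sum_comm, sum_units]
  congr 1
  · simp
  · apply Finset.sum_congr rfl
    intro m _
    rw [Finset.mul_sum]
    apply Finset.sum_congr rfl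
    intro U _
    rw [← AddChar.map_add_eq_mul]
    congr 1
    ring

/-- Passing from `E` to `k × E`. -/
theorem cubic_sum (hE : Module.finrank k E = 2) (h3 : (3 : k) ≠ 0) {ψ : AddChar k ℂ}
    (hψ : ψ ≠ 1) (γ β : E) (m : k) :
    (Fintype.card k : ℂ) * ∑ U : E, ψ (m * tr k E (γ * U ^ 3 - 3 * (β * U))) =
      ∑ h : k, ∑ z : k × E, ψ (m * (z.1 ^ 3 - 3 * z.1 * nm k E z.2 + tr k E (γ * z.2 ^ 3)) +
        3 * (z.1 * h + tr k E (z.2 * cj k E (algebraMap k E (-m) * cj k E β)))) := by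
  rw [Finset.sum_comm, Fintype.sum_prod_type, Finset.sum_comm, Finset.mul_sum]
  apply Finset.sum_congr rfl
  intro U _
  have key : ∀ a h : k, ψ (m * (a ^ 3 - 3 * a * nm k E U + tr k E (γ * U ^ 3)) +
        3 * (a * h + tr k E (U * cj k E (algebraMap k E (-m) * cj k E β)))) =
      ψ (m * (a ^ 3 - 3 * a * nm k E U + tr k E (γ * U ^ 3)) +
        3 * (tr k E (U * cj k E (algebraMap k E (-m) * cj k E β)))) * ψ (h * (3 * a)) := by
    intro a h
    rw [← AddChar.map_add_eq_mul]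
    congr 1
    ring
  simp only [key]
  simp_rw [← Finset.mul_sum, sum_psi hψ]
  rw [Finset.sum_eq_single (0 : k)]
  · rw [mul_zero, if_pos rfl, mul_comm]
    congr 2
    have e0 : cj k E (algebraMap k E (-m) * cj k E β) = algebraMap k E (-m) * β := by
      rw [map_mul, cj_algebraMap, cj_cj hE]
    have e1 : U * (algebraMap k E (-m) * β) = algebraMap k E (-m) * (β * U) := by ring
    have e2 : (3 : E) * (β * U) = algebraMap k E 3 * (β * U) := by rw [map_ofNat]
    rw [e0, e1, tr_algebraMap_mul, map_sub, e2, tr_algebraMap_mul]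
    ring
  · intro a _ ha
    rw [if_neg (mul_ne_zero h3 ha), mul_zero]
  · intro h
    exact absurd (Finset.mem_univ _) h

/-- Substituting `h ↦ - m h`. -/
theorem sum_neg_mul {M : Type} [AddCommMonoid M] (m : kˣ) (f : k → M) :
    ∑ h : k, f h = ∑ h : k, f (-((m : k) * h)) := by
  symm
  apply Fintype.sum_bijective (fun h : k => -((m : k) * h)) _ _ _ (fun h => rfl)
  constructor
  · intro x y hxy
    have h1 := neg_inj.1 hxy
    exact mul_left_cancel₀ m.ne_zero h1
  · intro y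
    refine ⟨-(((m⁻¹ : kˣ) : k) * y), ?_⟩
    simp

theorem k0_sum (h1 : GoalF1) (c : Ctx k E) {ψ : AddChar k ℂ} (hψ : ψ ≠ 1) (β : E) (hβ : β ≠ 0)
    (m : kˣ) :
    ∑ U : E, ψ ((m : k) * tr k E (c.ρ * U ^ 3 - 3 * (β * U))) =
      ∑ h : k, Kl ψ ((m : k) ^ 2 * c.n (h, cj k E β)) := by
  have hq : (Fintype.card k : ℂ) ≠ 0 := by
    exact_mod_cast Fintype.card_ne_zero
  apply mul_left_cancel₀ hq
  rw [cubic_sum c.finE c.three_ne hψ, Finset.mul_sum, sum_neg_mul m]
  apply Finset.sum_congr rfl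
  intro h _
  have h2 := h1 k E c ψ hψ m (-((m : k) * h), algebraMap k E (-(m : k)) * cj k E β)
  simp only [Ctx.n] at h2 ⊢
  rw [h2, ind_false, mul_zero, sub_zero]
  · congr 2
    rw [nm_algebraMap_mul c.finE]
    have e1 : c.ρ * (algebraMap k E (-(m : k)) * cj k E β) ^ 3 =
        algebraMap k E ((-(m : k)) ^ 3) * (c.ρ * cj k E β ^ 3) := by
      rw [map_pow]
      ring
    rw [e1, tr_algebraMap_mul]
    have hm : ((m⁻¹ : kˣ) : k) * (m : k) = 1 := Units.inv_mul m
    linear_combination ((m : k) ^ 2 * (h ^ 3 - 3 * h * nm k E (cj k E β) +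
      tr k E (c.ρ * cj k E β ^ 3))) * hm
  · rw [Prod.mk_eq_zero]
    rintro ⟨_, h4⟩
    rcases mul_eq_zero.1 h4 with h5 | h5
    · rw [map_neg, neg_eq_zero] at h5
      exact m.ne_zero (algebraMap_inj (E := E) (by rw [h5, map_zero]))
    · exact hβ (cj_eq_zero.1 h5)

/-- Packet K0. -/
theorem k0 (h1 : GoalF1) (h3 : GoalF3b) : GoalK0 := by
  intro k E _ _ _ _ _ c β t hβ
  obtain ⟨ψ, hψ⟩ := exists_psi k
  have hq : (Fintype.card k : ℂ) ≠ 0 := by
    exact_mod_cast Fintype.card_ne_zero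
  have hcount := count_zeros (k := k) (E := E) hψ
    (fun U => tr k E (c.ρ * U ^ 3 - 3 * (β * U))) t
  simp only [k0_sum h1 c hψ β hβ] at hcount
  have e1 : ∑ m : kˣ, ψ ((m : k) * t) * ∑ h : k, Kl ψ ((m : k) ^ 2 * c.n (h, cj k E β)) =
      ∑ h : k, ((Fintype.card k : ℂ) * (quadraticChar k (t ^ 2 - 4 * c.n (h, cj k E β)) : ℤ) + 1) := by
    simp_rw [Finset.mul_sum]
    rw [Finset.sum_comm]
    apply Finset.sum_congr rfl
    intro h _
    rw [h3 k ψ hψ c.two_ne t, ind_false, mul_zero, sub_zero]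
    rw [c.n_eq_zero, Prod.mk_eq_zero]
    rintro ⟨_, h4⟩
    exact hβ (cj_eq_zero.1 h4)
  rw [e1, Finset.sum_add_distrib, ← Finset.mul_sum, card_E c.finE] at hcount
  have e2 : ((c.PP c.ρ β t : ℤ) : ℂ) = (((Fintype.card k : ℤ) + 1 +
      ∑ h : k, quadraticChar k (t ^ 2 - 4 * (h ^ 3 - 3 * h * nm k E β +
        tr k E (c.ρ * cj k E β ^ 3))) : ℤ) : ℂ) := by
    apply mul_left_cancel₀ hq
    unfold Ctx.PP
    rw [Int.cast_natCast, hcount]
    simp only [Ctx.n, nm_cj c.finE]
    push_cast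
    simp
    ring
  exact_mod_cast e2

/-- A Kloosterman sum with general coefficients. -/
theorem kl_gen {ψ : AddChar k ℂ} (hψ : ψ ≠ 1) (y v : k) :
    ∑ u : kˣ, ψ ((u : k) * y + v * ((u⁻¹ : kˣ) : k)) =
      Kl ψ (y * v) + Fintype.card k * ind (y = 0 ∧ v = 0) := by
  have hKl0 : Kl ψ 0 = -1 := by
    have h := sum_psi_units hψ (1 : k)
    rw [if_neg one_ne_zero, zero_sub] at h
    rw [← h]
    unfold Kl
    apply Finset.sum_congr rfl
    intro u _
    rw [zero_mul, add_zero, mul_one]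
  by_cases hy : y = 0
  · subst hy
    have h1 : ∑ u : kˣ, ψ ((u : k) * 0 + v * ((u⁻¹ : kˣ) : k)) = ∑ u : kˣ, ψ ((u : k) * v) := by
      rw [← Equiv.sum_comp (Equiv.inv kˣ)]
      apply Finset.sum_congr rfl
      intro u _
      rw [Equiv.inv_apply, inv_inv, mul_zero, zero_add, mul_comm]
    rw [h1, sum_psi_units hψ, zero_mul, hKl0]
    by_cases hv : v = 0
    · rw [if_pos hv, ind_true ⟨rfl, hv⟩]
      ring
    · rw [if_neg hv, ind_false (fun h => hv h.2)]
      ring
  · rw [ind_false (fun h => hy h.1), mul_zero, add_zero]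
    unfold Kl
    symm
    rw [← Equiv.sum_comp (Equiv.mulRight (Units.mk0 y hy))]
    apply Finset.sum_congr rfl
    intro u _
    congr 1
    simp only [Equiv.coe_mulRight, Units.val_mul, Units.val_mk0, mul_inv_rev, Units.val_inv_eq_inv_val]
    field_simp

/-- The split cubic sum over `k^3`. -/
theorem split3 {ψ : AddChar k ℂ} (hψ : ψ ≠ 1) (m : kˣ) (y0 y1 y2 : k) :
    ∑ z : k × k × k, ψ ((m : k) * (z.1 * z.2.1 * z.2.2) + (z.1 * y0 + z.2.1 * y1 + z.2.2 * y2)) =
      Fintype.card k * Kl ψ (-(((m⁻¹ : kˣ) : k) * (y0 * y1 * y2))) +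
        (Fintype.card k : ℂ) ^ 2 *
          (ind (y0 = 0 ∧ y2 = 0) + ind (y1 = 0 ∧ (y0 = 0 ∨ y2 = 0))) := by
  have h1 : ∑ z : k × k × k, ψ ((m : k) * (z.1 * z.2.1 * z.2.2) +
      (z.1 * y0 + z.2.1 * y1 + z.2.2 * y2)) =
      ∑ z1 : k, ∑ z2 : k, (if (m : k) * z1 * z2 + y0 = 0 then (Fintype.card k : ℂ) else 0) *
        ψ (z1 * y1 + z2 * y2) := by
    rw [Fintype.sum_prod_type, Finset.sum_comm, Fintype.sum_prod_type]
    apply Finset.sum_congr rfl
    intro z1 _
    apply Finset.sum_congr rfl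
    intro z2 _
    rw [← sum_psi hψ, Finset.sum_mul]
    apply Finset.sum_congr rfl
    intro z0 _
    rw [← AddChar.map_add_eq_mul]
    congr 1
    ring
  rw [h1, sum_units]
  have h2 : ∑ z2 : k, (if (m : k) * 0 * z2 + y0 = 0 then (Fintype.card k : ℂ) else 0) *
      ψ (0 * y1 + z2 * y2) = (Fintype.card k : ℂ) ^ 2 * ind (y0 = 0 ∧ y2 = 0) := by
    simp only [mul_zero, zero_mul, zero_add]
    rw [← Finset.mul_sum, sum_psi hψ]
    by_cases h0 : y0 = 0
    · by_cases h3 : y2 = 0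
      · rw [if_pos h0, if_pos h3, ind_true ⟨h0, h3⟩]
        ring
      · rw [if_neg h3, ind_false (fun h => h3 h.2)]
        ring
    · rw [if_neg h0, ind_false (fun h => h0 h.1)]
      ring
  have h3 : ∀ u : kˣ, ∑ z2 : k, (if (m : k) * (u : k) * z2 + y0 = 0 then
      (Fintype.card k : ℂ) else 0) * ψ ((u : k) * y1 + z2 * y2) =
      Fintype.card k * ψ ((u : k) * y1 + (-(((m⁻¹ : kˣ) : k) * (y0 * y2))) *
        ((u⁻¹ : kˣ) : k)) := by
    intro u
    have hm : ((m⁻¹ : kˣ) : k) * (m : k) = 1 := Units.inv_mul m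
    have hu : ((u⁻¹ : kˣ) : k) * (u : k) = 1 := Units.inv_mul u
    rw [Finset.sum_eq_single (-(((m⁻¹ : kˣ) : k) * ((u⁻¹ : kˣ) : k) * y0))]
    · rw [if_pos]
      · congr 2
        ring
      · linear_combination (-y0 * ((u⁻¹ : kˣ) : k) * (u : k)) * hm - y0 * hu
    · intro z _ hz
      rw [if_neg, zero_mul]
      intro h
      apply hz
      have : z = ((m⁻¹ : kˣ) : k) * ((u⁻¹ : kˣ) : k) * ((m : k) * (u : k) * z + y0)
          - ((m⁻¹ : kˣ) : k) * ((u⁻¹ : kˣ) : k) * y0 := by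
        linear_combination (-z * ((u⁻¹ : kˣ) : k) * (u : k)) * hm - z * hu
      rw [this, h]
      ring
    · intro h
      exact absurd (Finset.mem_univ _) h
  rw [h2, Finset.sum_congr rfl (fun u _ => h3 u), ← Finset.mul_sum, kl_gen hψ]
  have h4 : y1 * (-(((m⁻¹ : kˣ) : k) * (y0 * y2))) = -(((m⁻¹ : kˣ) : k) * (y0 * y1 * y2)) := by
    ring
  have h5 : (y1 = 0 ∧ -(((m⁻¹ : kˣ) : k) * (y0 * y2)) = 0) = (y1 = 0 ∧ (y0 = 0 ∨ y2 = 0)) := by
    have : (-(((m⁻¹ : kˣ) : k) * (y0 * y2)) = 0) = (y0 = 0 ∨ y2 = 0) := by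
      rw [neg_eq_zero, mul_eq_zero, mul_eq_zero]
      simp
    rw [this]
  rw [h4, h5]
  ring

/-- The split coordinates. -/
noncomputable def phi (c : Ctx k E) (z : k × E) : k × k × k :=
  (z.1 + tr k E z.2, z.1 + tr k E (c.ω * z.2), z.1 + tr k E (c.ω ^ 2 * z.2))

theorem phi_mul (c : Ctx k E) (z : k × E) :
    (phi c z).1 * (phi c z).2.1 * (phi c z).2.2 =
      z.1 ^ 3 - 3 * z.1 * nm k E z.2 + tr k E (z.2 ^ 3) := by
  apply algebraMap_inj (E := E)
  simp only [phi, map_mul, map_add, map_sub, map_pow, map_ofNat, tr_formula c.finE,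
    nm_formula c.finE, c.cj_ω]
  set a := algebraMap k E z.1
  set U := z.2
  set V := cj k E z.2
  set w := c.ω
  linear_combination ((a + U + V) * (a * U + a * V * (w ^ 2 - w + 1) + (w - 1) * U ^ 2
    + (w ^ 3 - w + 1) * (U * V) + (w ^ 3 + 1) * (w - 1) * V ^ 2)) * c.hω

theorem phi_pair (c : Ctx k E) (z y : k × E) :
    (phi c z).1 * (phi c y).1 + (phi c z).2.1 * (phi c y).2.1 + (phi c z).2.2 * (phi c y).2.2 =
      3 * (z.1 * y.1 + tr k E (z.2 * cj k E y.2)) := by
  apply algebraMap_inj (E := E)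
  simp only [phi, map_mul, map_add, map_pow, map_ofNat, tr_formula c.finE, c.cj_ω,
    cj_cj c.finE]
  set a := algebraMap k E z.1
  set U := z.2
  set V := cj k E z.2
  set A := algebraMap k E y.1
  set B := y.2
  set C := cj k E y.2
  set w := c.ω
  linear_combination (a * B + a * C * (w ^ 2 - w + 1) + A * U + A * V * (w ^ 2 - w + 1)
    + U * B * (w ^ 2 - w + 1) + (U * C + V * B) * (w - 1) * (w ^ 3 + 2)
    + V * C * (w ^ 2 - w + 1) * (w ^ 4 - w ^ 2 + 1)) * c.hω

theorem phi_bij (c : Ctx k E) : Function.Bijective (phi c) := by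
  rw [Fintype.bijective_iff_injective_and_card]
  constructor
  · intro z y h
    have e0 : (phi c z).1 = (phi c y).1 := by rw [h]
    have e1 : (phi c z).2.1 = (phi c y).2.1 := by rw [h]
    have e2 : (phi c z).2.2 = (phi c y).2.2 := by rw [h]
    replace e0 := congrArg (algebraMap k E) e0
    replace e1 := congrArg (algebraMap k E) e1
    replace e2 := congrArg (algebraMap k E) e2
    simp only [phi, map_mul, map_add, map_pow, tr_formula c.finE, c.cj_ω] at e0 e1 e2
    have h3 := c.three_ne_E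
    have hw := c.hω
    set a := algebraMap k E z.1
    set U := z.2
    set V := cj k E z.2
    set A := algebraMap k E y.1
    set B := y.2
    set C := cj k E y.2
    set w := c.ω
    have ha : a = A := by
      apply mul_left_cancel₀ h3
      linear_combination e0 + e1 + e2 - ((U - B) + (V - C) * (w ^ 2 - w + 1)) * hw
    have hU : U = B := by
      apply mul_left_cancel₀ h3
      linear_combination e0 + w ^ 2 * e1 + w * e2 - ((a - A) + 2 * (w - 1) * (U - B)
        + (V - C) * (w ^ 3 - w + 1)) * hw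
    exact Prod.ext (algebraMap_inj (E := E) ha) hU
  · simp only [Fintype.card_prod, card_E c.finE]
    ring

/-- The split cubic sum over `k × E`. -/
theorem split_sum (c : Ctx k E) {ψ : AddChar k ℂ} (hψ : ψ ≠ 1) (m : kˣ) (y : k × E) :
    ∑ z : k × E, ψ ((m : k) * (z.1 ^ 3 - 3 * z.1 * nm k E z.2 + tr k E (z.2 ^ 3)) +
        3 * (z.1 * y.1 + tr k E (z.2 * cj k E y.2))) =
      Fintype.card k * Kl ψ (-(((m⁻¹ : kˣ) : k) *
        ((phi c y).1 * (phi c y).2.1 * (phi c y).2.2))) +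
        (Fintype.card k : ℂ) ^ 2 *
          (ind ((phi c y).1 = 0 ∧ (phi c y).2.2 = 0) +
            ind ((phi c y).2.1 = 0 ∧ ((phi c y).1 = 0 ∨ (phi c y).2.2 = 0))) := by
  rw [← split3 hψ m]
  apply Fintype.sum_bijective (phi c) (phi_bij c)
  intro z
  rw [phi_mul, phi_pair]

theorem phi_smul (c : Ctx k E) (m h : k) (B : E) :
    phi c (-(m * h), algebraMap k E (-m) * B) =
      (-(m * (phi c (h, B)).1), -(m * (phi c (h, B)).2.1), -(m * (phi c (h, B)).2.2)) := by
  have e1 : c.ω * (algebraMap k E (-m) * B) = algebraMap k E (-m) * (c.ω * B) := by ring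
  have e2 : c.ω ^ 2 * (algebraMap k E (-m) * B) = algebraMap k E (-m) * (c.ω ^ 2 * B) := by ring
  simp only [phi, e1, e2, tr_algebraMap_mul]
  refine Prod.ext ?_ (Prod.ext ?_ ?_)
  · simp only
    ring
  · simp only
    ring
  · simp only
    ring

/-- The number of pairs of zero coordinates (when not all three are zero). -/
noncomputable def pz (z : k × k × k) : ℂ :=
  ind (z.1 = 0 ∧ z.2.2 = 0) + ind (z.2.1 = 0 ∧ (z.1 = 0 ∨ z.2.2 = 0))

theorem k1_sum (c : Ctx k E) {ψ : AddChar k ℂ} (hψ : ψ ≠ 1) (β : E) (m : kˣ) :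
    ∑ U : E, ψ ((m : k) * tr k E (1 * U ^ 3 - 3 * (β * U))) =
      ∑ h : k, (Kl ψ ((m : k) ^ 2 * (h ^ 3 - 3 * h * nm k E (cj k E β) +
        tr k E (cj k E β ^ 3))) + Fintype.card k * pz (phi c (h, cj k E β))) := by
  have hq : (Fintype.card k : ℂ) ≠ 0 := by
    exact_mod_cast Fintype.card_ne_zero
  apply mul_left_cancel₀ hq
  rw [cubic_sum c.finE c.three_ne hψ, Finset.mul_sum, sum_neg_mul m]
  apply Finset.sum_congr rfl
  intro h _
  have h2 := split_sum c hψ m (-((m : k) * h), algebraMap k E (-(m : k)) * cj k E β)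
  simp only [one_mul] at h2 ⊢
  rw [h2, phi_smul]
  simp only [neg_eq_zero, mul_eq_zero, m.ne_zero, false_or]
  have h3 := phi_mul c (h, cj k E β)
  simp only at h3
  rw [← h3]
  unfold pz
  have e1 : -(((m⁻¹ : kˣ) : k) * (-((m : k) * (phi c (h, cj k E β)).1) *
      -((m : k) * (phi c (h, cj k E β)).2.1) * -((m : k) * (phi c (h, cj k E β)).2.2))) =
      (m : k) ^ 2 * ((phi c (h, cj k E β)).1 * (phi c (h, cj k E β)).2.1 *
        (phi c (h, cj k E β)).2.2) := by
    have hm : ((m⁻¹ : kˣ) : k) * (m : k) = 1 := Units.inv_mul m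
    linear_combination ((m : k) ^ 2 * ((phi c (h, cj k E β)).1 * (phi c (h, cj k E β)).2.1 *
      (phi c (h, cj k E β)).2.2)) * hm
  rw [e1]
  ring

theorem sum_ind {P : k → Prop} (b : k) (Q : k → Prop) (hP : ∀ h, P h ↔ h + b = 0 ∧ Q h) :
    ∑ h : k, ind (P h) = ind (Q (-b)) := by
  rw [Finset.sum_eq_single (-b)]
  · have : P (-b) = Q (-b) := by
      rw [propext (hP (-b))]
      simp
    rw [this]
  · intro h _ hh
    apply ind_false
    rw [hP]
    rintro ⟨h1, _⟩
    exact hh (eq_neg_of_add_eq_zero_left h1)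
  · intro h
    exact absurd (Finset.mem_univ _) h

theorem ind_prod (z : k × k × k) :
    ind (z.1 * z.2.1 * z.2.2 = 0) = ind (z.1 = 0) + ind (z.2.1 = 0) + ind (z.2.2 = 0) - pz z := by
  unfold pz
  by_cases h0 : z.1 = 0 <;> by_cases h1 : z.2.1 = 0 <;> by_cases h2 : z.2.2 = 0 <;>
    norm_num [ind, h0, h1, h2]

theorem sum_pz (c : Ctx k E) {B : E} (hB : B ≠ 0) :
    ∑ h : k, pz (phi c (h, B)) = ind (cj k E (B ^ 3) = B ^ 3) := by
  unfold pz
  rw [Finset.sum_add_distrib, sum_ind (tr k E B) (fun h => h + tr k E (c.ω ^ 2 * B) = 0),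
    sum_ind (tr k E (c.ω * B)) (fun h => h + tr k E B = 0 ∨ h + tr k E (c.ω ^ 2 * B) = 0)]
  rotate_left
  · intro h
    simp [phi]
  · intro h
    simp [phi]
  have hw := c.hω
  have hw3 := c.ω3
  have hw1 : c.ω - 1 ≠ 0 := by
    intro h
    apply c.three_ne_E
    linear_combination hw - (c.ω + 2) * h
  have hw0 : c.ω ≠ 0 := by
    intro h
    rw [h] at hw
    norm_num at hw
  have ht0 := tr_formula c.finE B
  have ht1 := tr_formula c.finE (c.ω * B)
  have ht2 := tr_formula c.finE (c.ω ^ 2 * B)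
  rw [map_mul (cj k E), c.cj_ω] at ht1
  rw [map_mul (cj k E), map_pow (cj k E), c.cj_ω] at ht2
  rw [map_pow (cj k E)]
  set V := cj k E B with hVdef
  set w := c.ω with hwdef
  have a1 : (-tr k E B + tr k E (w ^ 2 * B) = 0) ↔ V - w ^ 2 * B = 0 := by
    rw [← map_eq_zero_iff (algebraMap k E) (algebraMap k E).injective, map_add, map_neg, ht0, ht2]
    have e : -(B + V) + (w ^ 2 * B + (w ^ 2) ^ 2 * V) = (w - 1) * (V - w ^ 2 * B) := by
      linear_combination ((w - 1) * (B + w * V)) * hw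
    rw [e, mul_eq_zero]
    simp [hw1]
  have a2 : (-tr k E (w * B) + tr k E B = 0) ↔ V - w * B = 0 := by
    rw [← map_eq_zero_iff (algebraMap k E) (algebraMap k E).injective, map_add, map_neg, ht0, ht1]
    have e : -(w * B + w ^ 2 * V) + (B + V) = (w - 1) * (w ^ 2 * (V - w * B)) := by
      linear_combination (-(w - 1) * ((1 - w) * B + V)) * hw
    rw [e, mul_eq_zero, mul_eq_zero]
    simp [hw1, hw0]
  have a3 : (-tr k E (w * B) + tr k E (w ^ 2 * B) = 0) ↔ V - B = 0 := by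
    rw [← map_eq_zero_iff (algebraMap k E) (algebraMap k E).injective, map_add, map_neg, ht1, ht2]
    have e : -(w * B + w ^ 2 * V) + (w ^ 2 * B + (w ^ 2) ^ 2 * V) =
        -((w - 1) * (w * (V - B))) := by
      linear_combination (w * (w - 1) * V) * hw
    rw [e, neg_eq_zero, mul_eq_zero, mul_eq_zero]
    simp [hw1, hw0]
  rw [a1, a2, a3]
  have hprod : V ^ 3 - B ^ 3 = (V - B) * ((V - w * B) * (V - w ^ 2 * B)) := by
    linear_combination ((V - B) * V * B - (w - 1) * (V - B) * B ^ 2) * hw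
  have hiff : (V ^ 3 = B ^ 3) ↔ (V - B = 0 ∨ V - w * B = 0 ∨ V - w ^ 2 * B = 0) := by
    rw [← sub_eq_zero, hprod, mul_eq_zero, mul_eq_zero]
  rw [hiff]
  by_cases h1 : V - w ^ 2 * B = 0
  · have h2 : ¬ (V - w * B = 0) := by
      intro h
      have : (w - 1) * (w * B) = 0 := by linear_combination h - h1
      rcases mul_eq_zero.1 this with h | h
      · exact hw1 h
      · exact (mul_ne_zero hw0 hB) h
    have h3 : ¬ (V - B = 0) := by
      intro h
      have : (w - 1) * ((w + 1) * B) = 0 := by linear_combination h - h1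
      rcases mul_eq_zero.1 this with h | h
      · exact hw1 h
      · rcases mul_eq_zero.1 h with h | h
        · have : w ^ 2 = 0 := by linear_combination hw - h
          exact hw0 (pow_eq_zero_iff (by norm_num) |>.1 this)
        · exact hB h
    simp [ind, h1, h2, h3]
  · simp [ind, h1, or_comm]

/-- Packet K1. -/
theorem k1 (h3 : GoalF3b) : GoalK1 := by
  intro k E _ _ _ _ _ c β t hβ
  obtain ⟨ψ, hψ⟩ := exists_psi k
  have hq : (Fintype.card k : ℂ) ≠ 0 := by
    exact_mod_cast Fintype.card_ne_zero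
  have hB : cj k E β ≠ 0 := fun h => hβ (cj_eq_zero.1 h)
  have hcount := count_zeros (k := k) (E := E) hψ
    (fun U => tr k E (1 * U ^ 3 - 3 * (β * U))) t
  simp only [k1_sum c hψ β, Finset.sum_add_distrib, ← Finset.mul_sum, sum_pz c hB] at hcount
  have e1 : ∑ m : kˣ, ψ ((m : k) * t) * ∑ h : k, Kl ψ ((m : k) ^ 2 *
      (h ^ 3 - 3 * h * nm k E (cj k E β) + tr k E (cj k E β ^ 3))) =
      ∑ h : k, ((Fintype.card k : ℂ) * (quadraticChar k (t ^ 2 - 4 *
        (h ^ 3 - 3 * h * nm k E (cj k E β) + tr k E (cj k E β ^ 3))) : ℤ) + 1 -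
        Fintype.card k * (ind (h + tr k E (cj k E β) = 0) +
          ind (h + tr k E (c.ω * cj k E β) = 0) + ind (h + tr k E (c.ω ^ 2 * cj k E β) = 0)
          - pz (phi c (h, cj k E β)))) := by
    simp_rw [Finset.mul_sum]
    rw [Finset.sum_comm]
    apply Finset.sum_congr rfl
    intro h _
    rw [h3 k ψ hψ c.two_ne t]
    have h4 := ind_prod (phi c (h, cj k E β))
    have h5 := phi_mul c (h, cj k E β)
    simp only at h5
    rw [h5] at h4
    rw [h4]
    simp only [phi]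
  have e2 : ∑ m : kˣ, ψ ((m : k) * t) * ((Fintype.card k : ℂ) *
      ind (cj k E (cj k E β ^ 3) = cj k E β ^ 3)) =
      ((if t = 0 then (Fintype.card k : ℂ) else 0) - 1) * ((Fintype.card k : ℂ) *
      ind (cj k E (cj k E β ^ 3) = cj k E β ^ 3)) := by
    rw [← Finset.sum_mul, sum_psi_units hψ]
  rw [Finset.sum_congr rfl (fun (m : kˣ) _ => mul_add (ψ ((m : k) * t)) _ _),
    Finset.sum_add_distrib, e1, e2] at hcount
  have s0 : ∀ b : k, ∑ h : k, ind (h + b = 0) = 1 := by
    intro b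
    rw [sum_ind (P := fun h => h + b = 0) b (fun _ => True) (fun h => by simp), ind_true trivial]
  simp only [Finset.sum_add_distrib, Finset.sum_sub_distrib, ← Finset.mul_sum, sum_pz c hB,
    s0, Finset.sum_const, Finset.card_univ, nsmul_eq_mul, mul_one, card_E c.finE] at hcount
  have e3 : (cj k E (cj k E β ^ 3) = cj k E β ^ 3) ↔ (cj k E (β ^ 3) = β ^ 3) := by
    rw [map_pow, map_pow, cj_cj c.finE]
    exact eq_comm
  have e4 : tr k E (cj k E β ^ 3) = tr k E (β ^ 3) := by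
    rw [← map_pow, tr_cj c.finE]
  have e5 : ((c.PP 1 β t : ℤ) : ℂ) = (((Fintype.card k : ℤ) - 2 +
      ∑ h : k, quadraticChar k (t ^ 2 - 4 * (h ^ 3 - 3 * h * nm k E β + tr k E (β ^ 3)))
      + (if t = 0 ∧ cj k E (β ^ 3) = β ^ 3 then (Fintype.card k : ℤ) else 0) : ℤ) : ℂ) := by
    apply mul_left_cancel₀ hq
    unfold Ctx.PP
    rw [Int.cast_natCast, hcount]
    simp only [nm_cj c.finE, e4]
    by_cases h6 : cj k E (β ^ 3) = β ^ 3
    · rw [ind_true (e3.2 h6)]
      by_cases h7 : t = 0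
      · rw [if_pos h7, if_pos ⟨h7, h6⟩]
        push_cast
        ring
      · rw [if_neg h7, if_neg (fun h => h7 h.1)]
        push_cast
        ring
    · have h8 : (if t = 0 ∧ cj k E (β ^ 3) = β ^ 3 then (Fintype.card k : ℤ) else 0) = 0 :=
        if_neg (fun h => h6 h.2)
      rw [ind_false (fun h => h6 (e3.1 h)), h8]
      push_cast
      ring
  exact_mod_cast e5

end Pool.Agent.Helper90.Hemi
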